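import Pool.Agent.Helper43.NK.Defs
import Pool.Agent.Helper78.NK.Rec

/-!
# NK, C2: the cut of a computation into windows of bounded length, the dichotomy
-/

set_option autoImplicit false

namespace Pool.Agent.Helper70.NK

open Finset Pool.Agent.Helper19.NF Pool.Agent.Helper74.NW Pool.Agent.Helper99.NQ Pool.Agent.Helper43.NK
open Pool.Agent.Helper74.NE (fine fine_apply)

section cut

variable {S : ℕ} {Z : Type}

theorem exists_cut {C W : Type} (P : NProg C W Z S) {I : C → W} {s t : Fin S} {c : List C} (hc : P.Run I s c t)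
    {w T : ℕ} (hlen : c.length ≤ (w + 1) * T) :
    ∃ (σ : Fin (w + 2) → Fin S) (x : Fin (w + 1) → List C), σ 0 = s ∧ σ (Fin.last _) = t ∧
      ∀ l, P.Run I (σ l.castSucc) (x l) (σ l.succ) ∧ (x l).length ≤ T := by
  induction w generalizing s c with
  | zero =>
    refine ⟨![s, t], fun _ => c, rfl, rfl, fun l => ?_⟩
    obtain rfl : l = 0 := Fin.fin_one_eq_zero l
    refine ⟨hc, ?_⟩
    simpa using hlen
  | succ w ih =>
    have h1 : P.Run I s (c.take T ++ c.drop T) t := by
      rw [List.take_append_drop]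
      exact hc
    obtain ⟨p, hp1, hp2⟩ := run_split _ h1
    have hl1 : (c.take T).length ≤ T := by
      rw [List.length_take]
      exact min_le_left _ _
    have hl2 : (c.drop T).length ≤ (w + 1) * T := by
      rw [List.length_drop]
      have h2 : (w + 1 + 1) * T = (w + 1) * T + T := by ring
      omega
    obtain ⟨σ, x, hσ0, hσt, hx⟩ := ih hp2 hl2
    refine ⟨Fin.cons s σ, Fin.cons (c.take T) x, rfl, ?_, ?_⟩
    · rw [← Fin.succ_last, Fin.cons_succ]
      exact hσt
    · intro l
      refine Fin.cases ?_ (fun i => ?_) l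
      · rw [Fin.castSucc_zero, Fin.cons_zero, Fin.cons_zero, Fin.cons_succ, hσ0]
        exact ⟨hp1, hl1⟩
      · rw [Fin.castSucc_succ, Fin.cons_succ, Fin.cons_succ, Fin.cons_succ]
        exact hx i

end cut

section dich

variable {n D m S : ℕ} [NeZero m] {F B Z : Type} [Field F] [AddCommGroup B] [Module F B] [Fintype B]

theorem dichotomy (P : NProg (B × Word D m B) F Z S) (g : Fin D → Equiv.Perm (Fin n)) (x0 : Fin n × Fin m → B)
    (h T a R : ℕ) {w : ℕ}
    (hX : ∀ X : Finset (Fin n), n ≤ 4 * (w + 1) * X.card →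
      n ≤ (X.biUnion (fun u => univ.image (fun s => g s u))).card + a)
    {I : B × Word D m B → F} {c : List (B × Word D m B)} {z : Z} (hc : P.Ends I c z)
    (hlen : c.length ≤ (w + 1) * T) :
    (∃ s t, (∃ c, P.Run I s c t ∧ c.length ≤ T) ∧ Pool.Agent.Helper78.NK.Force P g x0 h a R T s t I) ∨
      ∃ (σ : Fin (w + 2) → Fin S) (V : Finset (Fin n)) (τ : Fin (w + 1) → Fin n → Fin D × Fin m),
      σ 0 = P.start ∧ P.act (σ (Fin.last _)) = Sum.inr z ∧ 3 * n ≤ 4 * V.card ∧ InT P g x0 h R σ V τ I := by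
  classical
  obtain ⟨t, hrun, hact⟩ := hc
  obtain ⟨σ, x, hσ0, hσt, hx⟩ := exists_cut P hrun hlen
  by_cases hF : ∃ l : Fin (w + 1), Pool.Agent.Helper78.NK.Force P g x0 h a R T (σ l.castSucc) (σ l.succ) I
  · obtain ⟨l, hl⟩ := hF
    exact Or.inl ⟨_, _, ⟨x l, hx l⟩, hl⟩
  push Not at hF
  -- there are letters
  have hD : 0 < D := by
    rcases Nat.eq_zero_or_pos D with h0 | h0
    · exfalso
      subst h0
      refine hF 0 fun c _ _ => ?_
      have h1 := hX univ (by
        rw [card_univ, Fintype.card_fin]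
        exact Nat.le_mul_of_pos_left _ (by positivity))
      have h2 : ((univ : Finset (Fin n)).biUnion
          (fun u => (univ : Finset (Fin 0)).image (fun s => g s u))).card = 0 := by
        rw [card_eq_zero]
        ext v
        simp
      omega
    · exact h0
  have r0 : Fin D × Fin m := (⟨0, hD⟩, 0)
  have h1 : ∀ l : Fin (w + 1), ∃ c, P.Run I (σ l.castSucc) c (σ l.succ) ∧ c.length ≤ T ∧
      4 * (w + 1) * (comp g x0 h R I (free c)).card < n := by
    intro l
    rcases Pool.Agent.Helper78.NK.force_or P g x0 h a R T (4 * (w + 1)) hX I (σ l.castSucc) (σ l.succ) with h2 | h2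
    · exact absurd h2 (hF l)
    · exact h2
  choose y hy1 hy2 hy3 using h1
  have h2 : ∀ l : Fin (w + 1), ∃ f : Fin n → Fin D × Fin m, ∀ u, u ∉ comp g x0 h R I (free (y l)) →
      h ≤ gap (free (y l)) (val (fine g) x0 (tab I) R (pos g f u)) :=
    fun l => Pool.Agent.Helper78.NK.exists_holes g x0 h R I (free (y l)) r0
  choose τ hτ using h2
  refine Or.inr ⟨σ, (univ.biUnion (fun l => comp g x0 h R I (free (y l))))ᶜ, τ, hσ0, ?_, ?_, ?_⟩
  · rw [hσt]
    exact hact
  · have h3 : (univ.biUnion (fun l => comp g x0 h R I (free (y l)))).card ≤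
        ∑ l : Fin (w + 1), (comp g x0 h R I (free (y l))).card := card_biUnion_le
    have h4 : (w + 1) * (4 * ∑ l : Fin (w + 1), (comp g x0 h R I (free (y l))).card) ≤ (w + 1) * n := by
      calc (w + 1) * (4 * ∑ l : Fin (w + 1), (comp g x0 h R I (free (y l))).card)
          = ∑ l : Fin (w + 1), 4 * (w + 1) * (comp g x0 h R I (free (y l))).card := by
            rw [mul_sum, mul_sum]
            exact sum_congr rfl fun l _ => by ring
        _ ≤ ∑ _l : Fin (w + 1), n := sum_le_sum fun l _ => (hy3 l).le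
        _ = (w + 1) * n := by
            rw [sum_const, card_univ, Fintype.card_fin, smul_eq_mul]
    have h5 := Nat.le_of_mul_le_mul_left h4 (Nat.succ_pos w)
    have h6 := card_compl_add_card (univ.biUnion (fun l => comp g x0 h R I (free (y l))))
    rw [Fintype.card_fin] at h6
    omega
  · intro l
    refine ⟨y l, hy1 l, fun u hu => hτ l u fun h3 => ?_⟩
    exact (mem_compl.1 hu) (mem_biUnion.2 ⟨l, mem_univ _, h3⟩)

end dich

end Pool.Agent.Helper70.NK
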