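import Pool.Agent.Helper70.NK.Cut
import Pool.Agent.Helper78.NQ.Main
import Pool.Agent.Helper18.PH.P1

/-!
# NK, C2b: all types together, the average over the symbols at the place `0`
-/

set_option autoImplicit false

namespace Pool.Agent.Helper70.NK

open Finset Pool.Agent.Helper19.NF Pool.Agent.Helper74.NW Pool.Agent.Helper99.NQ Pool.Agent.Helper43.NK
open Pool.Agent.Helper74.NE (fine fine_apply)
open Pool.Agent.Helper96.PH (CB)

section count

theorem card_hom {G H : Type} [AddCommGroup G] [AddCommGroup H] (f : G →+ H)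
    (hf : Function.Surjective f) (p : H → Prop) :
    Nat.card {x // p (f x)} * Nat.card H = Nat.card {y // p y} * Nat.card G := by
  classical
  choose sec hsec using hf
  have key : ∀ p : H → Prop, Nat.card {x : G // p (f x)} = Nat.card {y : H // p y} * Nat.card f.ker := by
    intro p
    rw [← Nat.card_prod]
    refine Nat.card_congr
      { toFun := fun x => (⟨f x.1, x.2⟩, ⟨x.1 - sec (f x.1), ?_⟩)
        invFun := fun x => ⟨x.2.1 + sec x.1.1, ?_⟩
        left_inv := ?_
        right_inv := ?_ }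
    · rw [AddMonoidHom.mem_ker, map_sub, hsec, sub_self]
    · have h1 : f (x.2.1 + sec x.1.1) = x.1.1 := by
        rw [map_add, hsec, AddMonoidHom.mem_ker.1 x.2.2, zero_add]
      rw [h1]
      exact x.1.2
    · intro x
      apply Subtype.ext
      simp
    · rintro ⟨⟨y, hy⟩, ⟨k, hk⟩⟩
      have h1 : f (k + sec y) = y := by
        rw [map_add, hsec, AddMonoidHom.mem_ker.1 hk, zero_add]
      refine Prod.ext (Subtype.ext h1) (Subtype.ext ?_)
      simp only [h1, add_sub_cancel_right]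
  have h1 := key p
  have h2 := key (fun _ => True)
  have h3 : Nat.card {x : G // True} = Nat.card G := Nat.card_congr (Equiv.subtypeUnivEquiv fun _ => trivial)
  have h4 : Nat.card {y : H // True} = Nat.card H := Nat.card_congr (Equiv.subtypeUnivEquiv fun _ => trivial)
  rw [h3, h4] at h2
  rw [h1, h2]
  ring

theorem card_fiber {X Y : Type} [Finite X] [Finite Y] (f : X → Y) (p : X → Prop) (good : Y → Prop) (δ : ℝ)
    (hδ : 0 ≤ δ) (hp : ∀ x, p x → good (f x))
    (h : ∀ y, good y → (Nat.card {x // f x = y ∧ p x} : ℝ) ≤ δ * Nat.card {x // f x = y}) :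
    (Nat.card {x // p x} : ℝ) ≤ δ * Nat.card X := by
  classical
  have hY : Fintype Y := Fintype.ofFinite Y
  have e1 : {x // p x} ≃ Σ y : Y, {x // f x = y ∧ p x} :=
    { toFun := fun x => ⟨f x.1, ⟨x.1, rfl, x.2⟩⟩
      invFun := fun z => ⟨z.2.1, z.2.2.2⟩
      left_inv := fun x => rfl
      right_inv := by
        rintro ⟨y, x, rfl, hx⟩
        rfl }
  have e2 : X ≃ Σ y : Y, {x // f x = y} :=
    { toFun := fun x => ⟨f x, ⟨x, rfl⟩⟩
      invFun := fun z => z.2.1
      left_inv := fun x => rfl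
      right_inv := by
        rintro ⟨y, x, rfl⟩
        rfl }
  rw [Nat.card_congr e1, Nat.card_congr e2, Nat.card_sigma, Nat.card_sigma]
  push_cast
  rw [mul_sum]
  refine sum_le_sum fun y _ => ?_
  by_cases hy : good y
  · exact h y hy
  · have h0 : Nat.card {x // f x = y ∧ p x} = 0 := by
      rw [Nat.card_eq_zero]
      refine Or.inl ⟨fun x => hy ?_⟩
      rw [← x.2.1]
      exact hp x.1 x.2.2
    rw [h0, Nat.cast_zero]
    positivity

theorem card_or {X : Type} [Finite X] (p q : X → Prop) :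
    Nat.card {x // p x ∨ q x} ≤ Nat.card {x // p x} + Nat.card {x // q x} := by
  classical
  have := Fintype.ofFinite X
  simp only [Nat.card_eq_fintype_card, Fintype.card_subtype, filter_or]
  exact card_union_le _ _

end count

/-- The windows together. -/
theorem runs {C W Z : Type} {S : ℕ} (P : NProg C W Z S) {I : C → W} {w : ℕ} (σ : Fin (w + 2) → Fin S)
    (h : ∀ l : Fin (w + 1), ∃ c, P.Run I (σ l.castSucc) c (σ l.succ)) :
    ∃ c, P.Run I (σ 0) c (σ (Fin.last _)) := by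
  induction w with
  | zero => exact h 0
  | succ w ih =>
    obtain ⟨c1, h1⟩ := h 0
    obtain ⟨c2, h2⟩ := ih (fun i => σ i.succ) (fun l => h l.succ)
    exact ⟨c1 ++ c2, run_append h1 h2⟩

section good

variable {D m : ℕ} {F B : Type} [Field F] [Fintype F] [AddCommGroup B] [Module F B] [Fintype B]

/-- The symbols at the place `0`. -/
def gam : (B × Word D m B → F) →+ (B → F) where
  toFun I := fun b => I (b, 0)
  map_zero' := rfl
  map_add' _ _ := rfl

omit [Fintype F] [Module F B] [Fintype B] in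
theorem gam_surjective : Function.Surjective (gam (D := D) (m := m) (F := F) (B := B)) := by
  intro γ
  exact ⟨fun p => γ p.1, rfl⟩

/-- The cylinder lemma holds for `γ`. -/
def Good (γ : B → F) (w : ℕ) : Prop := ∀ (ι : Type) [Fintype ι],
  CB γ ι w ((Fintype.card B : ℝ) ^ (-(Fintype.card ι : ℝ) / 2 ^ (w + 2)))

omit [Module F B] in
theorem card_bad (w : ℕ) :
    (Nat.card {I : B × Word D m B → F // ¬ Good (gam I) w} : ℝ) ≤
      Fintype.card F * 2 ^ (w + 1) / Real.sqrt (Fintype.card B) * Nat.card (B × Word D m B → F) := by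
  have h1 := card_hom (gam (D := D) (m := m) (F := F) (B := B)) gam_surjective (fun γ => ¬ Good γ w)
  have h2 : (Nat.card {γ : B → F // ¬ Good γ w} : ℝ) ≤
      Fintype.card F * 2 ^ (w + 1) / Real.sqrt (Fintype.card B) * Nat.card (B → F) :=
    Pool.Agent.Helper18.PH.bns2 B F w
  have h3 : (Nat.card {I : B × Word D m B → F // ¬ Good (gam I) w} : ℝ) * Nat.card (B → F) =
      Nat.card {γ : B → F // ¬ Good γ w} * Nat.card (B × Word D m B → F) := by exact_mod_cast h1
  have h4 : (0 : ℝ) < Nat.card (B → F) := by exact_mod_cast Nat.card_pos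
  refine le_of_mul_le_mul_right ?_ h4
  rw [h3]
  refine (mul_le_mul_of_nonneg_right h2 (Nat.cast_nonneg _)).trans (le_of_eq ?_)
  ring

omit [Fintype F] [Module F B] in
/-- A larger error. -/
theorem cb_of_good {γ : B → F} {w κ : ℕ} (h : Good γ w) {ι : Type} [Fintype ι] (hι : κ ≤ Fintype.card ι) :
    CB γ ι w ((Fintype.card B : ℝ) ^ (-(κ : ℝ) / 2 ^ (w + 2))) := by
  intro x C hC a
  refine (h ι x C hC a).trans ?_
  have hB : (1 : ℝ) ≤ Fintype.card B := by exact_mod_cast Fintype.card_pos_iff.mpr ⟨(0 : B)⟩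
  have h1 : ((Fintype.card B : ℝ) ^ (-(Fintype.card ι : ℝ) / 2 ^ (w + 2))) ≤
      ((Fintype.card B : ℝ) ^ (-(κ : ℝ) / 2 ^ (w + 2))) := by
    refine Real.rpow_le_rpow_of_exponent_le hB ?_
    have h2 : (κ : ℝ) ≤ Fintype.card ι := by exact_mod_cast hι
    gcongr
  gcongr

end good

section main

variable {n D m S : ℕ} [NeZero m] {F B : Type} [Field F] [Fintype F] [AddCommGroup B] [Module F B] [Fintype B]

/-- The bound for all inputs, from the bound `δ` for one type and good symbols at the place `0`. -/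
theorem main_bound_of (d : ℕ) (P : NProg (B × Word D m B) F F S) (g : Fin D → Equiv.Perm (Fin n))
    (x0 : Fin n × Fin m → B) (hx0 : Function.Injective x0) (h T a R ℓ κ' j : ℕ) {w : ℕ} (hℓ : 2 ^ R * ℓ ≤ T)
    (hX : ∀ X : Finset (Fin n), n ≤ 4 * (w + 1) * X.card →
      n ≤ (X.biUnion (fun u => univ.image (fun s => g s u))).card + a)
    (ha : a < n) (hP : ∀ I l z, P.Ends I l z → z = out g x0 (R + 1) I)
    (hL : h + ℓ ≤ Fintype.card (Word D m B)) (hq : Fintype.card (Word D m B) ≤ h * Fintype.card F)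
    (hT : T ≤ Fintype.card (B × Word D m B)) (η : ℝ)
    (hη : η = 1 + (1 - (T : ℝ) / Fintype.card (B × Word D m B) - (h : ℝ) / Fintype.card (Word D m B)) / 2)
    (hη1 : 1 ≤ η) (hκ' : 2 * a ≤ κ') (hj : 2 * j ≤ n) {δ : ℝ} (hδ : 0 ≤ δ)
    (htb : ∀ (σ : Fin (w + 2) → Fin S) (V : Finset (Fin n)) (τ : Fin (w + 1) → Fin n → Fin D × Fin m) (z : F)
      (γ : B → F), 3 * n ≤ 4 * V.card → Good γ (2 * w + 1) →
      (∀ I, (∀ b, I (b, 0) = γ b) → (∀ l : Fin (w + 1), ∃ c, P.Run I (σ l.castSucc) c (σ l.succ)) →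
        out g x0 (R + 1) I = z) →
      (Nat.card {I : B × Word D m B → F // (∀ b, I (b, 0) = γ b) ∧ CF (fine g) x0 R (tab I) ∧
        InT P g x0 h R σ V τ I} : ℝ) ≤
        δ * Nat.card {I : B × Word D m B → F // ∀ b, I (b, 0) = γ b}) :
    (Nat.card {I : B × Word D m B → F // ∃ l z, P.Ends I l z ∧ l.length ≤ (w + 1) * (2 ^ R * ℓ)} : ℝ) ≤
      (((R + 1) * (n * m)) ^ 2 / Fintype.card B +
        R * S ^ 3 * 2 ^ n * (D * m) ^ (2 * n) *
          err n m d a κ' j (Fintype.card F) ((h : ℝ) / Fintype.card (Word D m B)) η +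
        Fintype.card F * 2 ^ (2 * w + 2) / Real.sqrt (Fintype.card B) +
        S ^ (w + 2) * 2 ^ n * (D * m) ^ (n * (w + 1)) * δ) *
        Nat.card (B × Word D m B → F) := by
  classical
  -- there are letters
  have hD : 0 < D := by
    rcases Nat.eq_zero_or_pos D with h0 | h0
    · exfalso
      subst h0
      have h1 := hX univ (by
        rw [card_univ, Fintype.card_fin]
        exact Nat.le_mul_of_pos_left _ (by positivity))
      have h2 : ((univ : Finset (Fin n)).biUnion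
          (fun u => (univ : Finset (Fin 0)).image (fun s => g s u))).card = 0 := by
        rw [card_eq_zero]
        ext v
        simp
      omega
    · exact h0
  have r0 : Fin D × Fin m := (⟨0, hD⟩, 0)
  have hX4 : ∀ X : Finset (Fin n), n ≤ 4 * X.card →
      n ≤ (X.biUnion (fun u => univ.image (fun s => g s u))).card + a := by
    intro X hXc
    refine hX X (hXc.trans ?_)
    exact Nat.mul_le_mul_right _ (Nat.le_mul_of_pos_right _ (Nat.succ_pos w))
  obtain ⟨ok, hok⟩ : ∃ ok : (Fin (w + 2) → Fin S) → Prop, ∀ σ, ok σ ↔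
      (σ 0 = P.start ∧ ∃ z, P.act (σ (Fin.last _)) = Sum.inr z) := ⟨_, fun _ => Iff.rfl⟩
  let τt : Type := {σ : Fin (w + 2) → Fin S // ok σ} ×
    {V : Finset (Fin n) // 3 * n ≤ 4 * V.card} × (Fin (w + 1) → Fin n → Fin D × Fin m)
  let ev1 : (B × Word D m B → F) → Prop := fun I => ¬ CF (fine g) x0 R (tab I)
  let ev2 : (B × Word D m B → F) → Prop := fun I => CF (fine g) x0 R (tab I) ∧ ∃ s t,
      (∃ c, P.Run I s c t ∧ c.length ≤ 2 ^ R * ℓ) ∧
        Pool.Agent.Helper78.NK.Force P g x0 h a R (2 ^ R * ℓ) s t I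
  let ev3 : (B × Word D m B → F) → Prop := fun I => ¬ Good (gam I) (2 * w + 1)
  let ev4 : τt → (B × Word D m B → F) → Prop := fun θ I => Good (gam I) (2 * w + 1) ∧
    CF (fine g) x0 R (tab I) ∧ InT P g x0 h R θ.1.1 θ.2.1.1 θ.2.2 I
  have hcov : ∀ I : B × Word D m B → F, (∃ l z, P.Ends I l z ∧ l.length ≤ (w + 1) * (2 ^ R * ℓ)) →
      (ev1 I ∨ ev2 I ∨ ev3 I) ∨ ∃ θ, ev4 θ I := by
    rintro I ⟨l, z, hl, hlen⟩
    by_cases h1 : CF (fine g) x0 R (tab I)
    · by_cases h3 : Good (gam I) (2 * w + 1)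
      · rcases dichotomy P g x0 h (2 ^ R * ℓ) a R hX hl hlen with h2 | ⟨σ, V, τ, hσ0, hσt, hV, hI⟩
        · exact Or.inl (Or.inr (Or.inl ⟨h1, h2⟩))
        · exact Or.inr ⟨(⟨σ, (hok σ).2 ⟨hσ0, z, hσt⟩⟩, ⟨V, hV⟩, τ), h3, h1, hI⟩
      · exact Or.inl (Or.inr (Or.inr h3))
    · exact Or.inl (Or.inl h1)
  have hsum := Pool.Agent.Helper78.NQ.card_le_add_sum hcov
  have hsum1 : Nat.card {I // ev1 I ∨ ev2 I ∨ ev3 I} ≤
      Nat.card {I // ev1 I} + (Nat.card {I // ev2 I} + Nat.card {I // ev3 I}) :=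
    (card_or _ _).trans (Nat.add_le_add_left (card_or _ _) _)
  have hall : (Nat.card {I : B × Word D m B → F // ∃ l z, P.Ends I l z ∧ l.length ≤ (w + 1) * (2 ^ R * ℓ)} : ℝ) ≤
      Nat.card {I // ev1 I} + (Nat.card {I // ev2 I} + Nat.card {I // ev3 I}) +
        ∑ θ : τt, (Nat.card {I // ev4 θ I} : ℝ) := by
    exact_mod_cast hsum.trans (Nat.add_le_add_right hsum1 _)
  have b1 : (Nat.card {I // ev1 I} : ℝ) ≤
      ((R + 1) * (n * m)) ^ 2 / Fintype.card B * Nat.card (B × Word D m B → F) :=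
    Pool.Agent.Helper78.NQ.card_cf g x0 hx0 R r0
  have b2 : (Nat.card {I // ev2 I} : ℝ) ≤ R * S ^ 3 * 2 ^ n * (D * m) ^ (2 * n) *
      err n m d a κ' j (Fintype.card F) ((h : ℝ) / Fintype.card (Word D m B)) η *
        Nat.card (B × Word D m B → F) :=
    Pool.Agent.Helper78.NK.forced_bound P g x0 h T a R ℓ κ' j r0 hX4 ha hℓ hL hq hT η hη hη1 hκ' hj
  have b3 : (Nat.card {I // ev3 I} : ℝ) ≤
      Fintype.card F * 2 ^ (2 * w + 2) / Real.sqrt (Fintype.card B) * Nat.card (B × Word D m B → F) :=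
    card_bad (2 * w + 1)
  have b4 : ∀ θ : τt, (Nat.card {I // ev4 θ I} : ℝ) ≤ δ * Nat.card (B × Word D m B → F) := by
    intro θ
    refine card_fiber gam (ev4 θ) (fun γ => Good γ (2 * w + 1)) δ hδ (fun I hI => hI.1) fun γ hγ => ?_
    obtain ⟨hσ0, z, hz⟩ := (hok _).1 θ.1.2
    have h1 := htb θ.1.1 θ.2.1.1 θ.2.2 z γ θ.2.1.2 hγ (by
      intro I _ hr
      obtain ⟨c, hc⟩ := runs P θ.1.1 hr
      rw [hσ0] at hc
      exact (hP I c z ⟨_, hc, hz⟩).symm)
    have h2 : Nat.card {I // gam I = γ ∧ ev4 θ I} ≤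
        Nat.card {I : B × Word D m B → F // (∀ b, I (b, 0) = γ b) ∧ CF (fine g) x0 R (tab I) ∧
          InT P g x0 h R θ.1.1 θ.2.1.1 θ.2.2 I} := by
      refine Nat.card_le_card_of_injective
        (fun I => ⟨I.1, fun b => congrFun I.2.1 b, I.2.2.2.1, I.2.2.2.2⟩) ?_
      intro I I' hI
      exact Subtype.ext (congrArg (fun x => x.1) hI)
    have h3 : Nat.card {I : B × Word D m B → F // ∀ b, I (b, 0) = γ b} =
        Nat.card {I : B × Word D m B → F // gam I = γ} :=
      Nat.card_congr (Equiv.subtypeEquivRight fun I => ⟨fun h4 => funext h4, fun h4 b => congrFun h4 b⟩)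
    rw [h3] at h1
    exact (Nat.cast_le.2 h2).trans h1
  have hτ : (Fintype.card τt : ℝ) ≤ S ^ (w + 2) * 2 ^ n * (D * m) ^ (n * (w + 1)) := by
    have h3 : Fintype.card τt = Fintype.card {σ : Fin (w + 2) → Fin S // ok σ} *
        (Fintype.card {V : Finset (Fin n) // 3 * n ≤ 4 * V.card} * (((D * m) ^ n) ^ (w + 1))) := by
      show Fintype.card ({σ : Fin (w + 2) → Fin S // ok σ} ×
        {V : Finset (Fin n) // 3 * n ≤ 4 * V.card} × (Fin (w + 1) → Fin n → Fin D × Fin m)) = _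
      simp only [Fintype.card_prod, Fintype.card_fin, Fintype.card_fun]
    have h4 : Fintype.card {V : Finset (Fin n) // 3 * n ≤ 4 * V.card} ≤ 2 ^ n := by
      refine (Fintype.card_subtype_le _).trans ?_
      rw [Fintype.card_finset, Fintype.card_fin]
    have h4' : Fintype.card {σ : Fin (w + 2) → Fin S // ok σ} ≤ S ^ (w + 2) := by
      refine (Fintype.card_subtype_le _).trans ?_
      rw [Fintype.card_fun, Fintype.card_fin, Fintype.card_fin]
    have h5 : Fintype.card τt ≤ S ^ (w + 2) * (2 ^ n * (((D * m) ^ n) ^ (w + 1))) := by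
      rw [h3]
      exact Nat.mul_le_mul h4' (Nat.mul_le_mul_right _ h4)
    rw [← pow_mul, ← mul_assoc] at h5
    exact_mod_cast h5
  have hN : (0 : ℝ) ≤ Nat.card (B × Word D m B → F) := Nat.cast_nonneg _
  have b5 : ∑ θ : τt, (Nat.card {I // ev4 θ I} : ℝ) ≤
      S ^ (w + 2) * 2 ^ n * (D * m) ^ (n * (w + 1)) * δ * Nat.card (B × Word D m B → F) := by
    calc ∑ θ : τt, (Nat.card {I // ev4 θ I} : ℝ)
        ≤ ∑ _θ : τt, δ * Nat.card (B × Word D m B → F) := sum_le_sum fun θ _ => b4 θ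
      _ = Fintype.card τt * (δ * Nat.card (B × Word D m B → F)) := by
          rw [sum_const, card_univ, nsmul_eq_mul]
      _ ≤ (S ^ (w + 2) * 2 ^ n * (D * m) ^ (n * (w + 1))) * (δ * Nat.card (B × Word D m B → F)) :=
          mul_le_mul_of_nonneg_right hτ (mul_nonneg hδ hN)
      _ = _ := by ring
  refine hall.trans ?_
  refine (add_le_add (add_le_add b1 (add_le_add b2 b3)) b5).trans (le_of_eq ?_)
  ring

end main

end Pool.Agent.Helper70.NK
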